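import Pool.Agent.H6.RCQ.Stmts4
import Pool.Agent.H6.RCQ.Util

/-! # RCQ, module K5B -/

set_option autoImplicit false

namespace Pool.Agent.H44.RCQ.K5B

open Pool.Agent.H6.RCQ Pool.Agent.H39.RC
open Classical

variable {V : Type}

/-- the number of neighbours of `x` -/
theorem card_D {G : SimpleGraph V} {R : Finset V} {x : V} {n : ℕ} {t : ℕ → V}
    (hc : Circ G x (D G R x) n t) : (D G R x).card = n := by
  have : D G R x = (Finset.range n).image t := by
    ext d
    simp only [Finset.mem_image, Finset.mem_range]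
    constructor
    · intro hd
      exact hc.all d hd
    · rintro ⟨i, hi, rfl⟩
      exact hc.mem i hi
  rw [this, Finset.card_image_of_injOn, Finset.card_range]
  intro i hi j hj hij
  exact hc.inj i (by simpa using hi) j (by simpa using hj) hij

theorem card_U (G : SimpleGraph V) (R : Finset V) (x : V) :
    R.card = (D G R x).card + (U G R x).card + ir R x := by
  have h1 : R = D G R x ∪ (U G R x ∪ R.filter (fun v => v = x)) := by
    ext v
    simp only [D, U, Finset.mem_union, Finset.mem_filter]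
    by_cases h : v = x
    · subst h; simp
    · by_cases h' : G.Adj x v <;> simp [h, h']
  have h2 : Disjoint (D G R x) (U G R x ∪ R.filter (fun v => v = x)) := by
    rw [Finset.disjoint_left]
    intro v hv hv'
    simp only [D, U, Finset.mem_union, Finset.mem_filter] at hv hv'
    rcases hv' with h | h
    · exact h.2.2 hv.2
    · exact hv.2.ne h.2.symm
  have h3 : Disjoint (U G R x) (R.filter (fun v => v = x)) := by
    rw [Finset.disjoint_left]
    intro v hv hv'
    simp only [U, Finset.mem_filter] at hv hv'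
    exact hv.2.1 hv'.2
  have h4 : (R.filter (fun v => v = x)).card = ir R x := by
    unfold ir
    by_cases h : x ∈ R
    · have : R.filter (fun v => v = x) = {x} := by
        ext v
        simp only [Finset.mem_filter, Finset.mem_singleton]
        constructor
        · exact fun e => e.2
        · rintro rfl
          exact ⟨h, rfl⟩
      rw [this, if_pos h, Finset.card_singleton]
    · rw [if_neg h, Finset.card_eq_zero, Finset.filter_eq_empty_iff]
      rintro v hv rfl
      exact h hv
  conv_lhs => rw [h1]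
  rw [Finset.card_union_of_disjoint h2, Finset.card_union_of_disjoint h3, h4]
  ring

/-- a few known neighbours leave few other neighbours -/
theorem few {G : SimpleGraph V} {R : Finset V} {y : V} {d : ℕ} (hd : (D G R y).card ≤ d)
    (K : Finset V) (hK : ∀ k ∈ K, k ∈ R ∧ G.Adj y k) (W : Finset V)
    (hW : ∀ w ∈ W, w ∈ R ∧ G.Adj y w ∧ w ∉ K) : W.card + K.card ≤ d := by
  have h1 : W ∪ K ⊆ D G R y := by
    intro z hz
    rcases Finset.mem_union.1 hz with h | h
    · exact Finset.mem_filter.2 ⟨(hW z h).1, (hW z h).2.1⟩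
    · exact Finset.mem_filter.2 (hK z h)
  have h2 : Disjoint W K := by
    rw [Finset.disjoint_left]
    intro z hz
    exact (hW z hz).2.2
  have := Finset.card_le_card h1
  rw [Finset.card_union_of_disjoint h2] at this
  omega

theorem k5b (hK : K23Stmt) : K5BStmt := by
  intro V G R x t u v c h hu1 hv1 hh
  have hc := h.circ
  have hD : ∀ i < 5, t i ∈ R ∧ G.Adj x (t i) := by
    intro i hi
    have := hc.mem i hi
    simpa [D] using this
  have hU : ∀ w, w ∈ U G R x → w ∈ R ∧ w ≠ x ∧ ¬ G.Adj x w := by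
    intro w hw
    simpa [U] using hw
  have hne : ∀ i < 5, ∀ j < 5, i ≠ j → t i ≠ t j := fun i hi j hj hij e =>
    hij (hc.inj i hi j hj e)
  obtain ⟨huR, hux, hxu⟩ := hU u h.mu
  obtain ⟨hvR, hvx, hxv⟩ := hU v h.mv
  have hUt : ∀ w, ¬ G.Adj x w → ∀ i < 5, w ≠ t i := by
    intro w hw i hi e
    exact hw (e ▸ (hD i hi).2)
  have hct : ∀ i < 5, c ≠ t i := fun i hi e => hh.out (e ▸ hc.mem i hi)
  have hcu := hh.cu
  have hcv := hh.cv
  have hc3 := hh.ca
  have hc4 := hh.cb
  have n03 : ¬ G.Adj (t 3) (t 0) := fun e => by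
    have := h.adj 3 (by omega) 0 (by omega) e; omega
  have n24 : ¬ G.Adj (t 4) (t 2) := fun e => by
    have := h.adj 4 (by omega) 2 (by omega) e; omega
  have lk : ∀ a ∈ R, ∀ b ∈ R, a ≠ b → Rch G ∅ a b := h.s5.lf.lk
  -- every other vertex is adjacent to `u`
  have main : ∀ w ∈ R, w ≠ x → ¬ G.Adj x w → w ≠ u → w ≠ v → w ≠ c → ¬ G.Adj (t 1) w →
      ¬ G.Adj c w → G.Adj u w := by
    intro w hwR hwx hxw hwu hwv hwc h1w hcw
    obtain ⟨k0, hk0, e0⟩ : ∃ k0, (k0 = t 0 ∨ (G.Adj w k0)) ∧ (G.Adj w k0 ∧ (k0 = t 0 ∨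
        G.Adj k0 (t 0))) := by
      rcases lk w hwR (t 0) (hD 0 (by omega)).1 (hUt w hxw 0 (by omega)) with e | ⟨k, -, e, e'⟩
      · exact ⟨t 0, Or.inl rfl, e, Or.inl rfl⟩
      · exact ⟨k, Or.inr e, e, Or.inr e'⟩
    obtain ⟨k2, hk2, e2⟩ : ∃ k2, (k2 = t 2 ∨ (G.Adj w k2)) ∧ (G.Adj w k2 ∧ (k2 = t 2 ∨
        G.Adj k2 (t 2))) := by
      rcases lk w hwR (t 2) (hD 2 (by omega)).1 (hUt w hxw 2 (by omega)) with e | ⟨k, -, e, e'⟩
      · exact ⟨t 2, Or.inl rfl, e, Or.inl rfl⟩
      · exact ⟨k, Or.inr e, e, Or.inr e'⟩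
    have k0x : k0 ≠ x := fun e => hxw (e ▸ e0.1.symm)
    have k2x : k2 ≠ x := fun e => hxw (e ▸ e2.1.symm)
    have hA : Con G ({t 0, k0, w, k2, t 2} : Set V) :=
      con_five (by rcases e0.2 with e | e
                   · exact Or.inl e.symm
                   · exact Or.inr e.symm) (Or.inr e0.1.symm) (Or.inr e2.1) e2.2
    have hxA : x ∉ ({t 0, k0, w, k2, t 2} : Set V) := by
      simp only [Set.mem_insert_iff, Set.mem_singleton_iff, not_or]
      exact ⟨(hD 0 (by omega)).2.ne, k0x.symm, hwx.symm, k2x.symm, (hD 2 (by omega)).2.ne⟩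
    -- the generic crossing
    have cross : ∀ y j, (y = u ∨ y = v) → (j = 3 ∨ j = 4) →
        (k0 = y ∨ k2 = y) ∨ k0 = t j ∨ k2 = t j := by
      intro y j hy hj
      have hj5 : j < 5 := by omega
      have hyR : y ∈ R := by rcases hy with rfl | rfl <;> assumption
      have hyx : y ≠ x := by rcases hy with rfl | rfl <;> assumption
      have hxy : ¬ G.Adj x y := by rcases hy with rfl | rfl <;> assumption
      have hy1 : G.Adj y (t 1) := by rcases hy with rfl | rfl <;> assumption
      have hcy : G.Adj c y := by rcases hy with rfl | rfl <;> assumption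
      have hwy : w ≠ y := by rcases hy with rfl | rfl <;> assumption
      have hcj : G.Adj c (t j) := by rcases hj with rfl | rfl <;> assumption
      have hB : Con G ({t 1, y, c, t j} : Set V) :=
        con_four (Or.inr hy1.symm) (Or.inr hcy.symm) (Or.inr hcj)
      have hxB : x ∉ ({t 1, y, c, t j} : Set V) := by
        simp only [Set.mem_insert_iff, Set.mem_singleton_iff, not_or]
        exact ⟨(hD 1 (by omega)).2.ne, hyx.symm, hh.ne.symm, (hD j hj5).2.ne⟩
      have hcr := hc.cr 0 1 2 j (by omega) (by omega) (by omega) hj5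
      obtain ⟨z, hz1, hz2⟩ := hcr _ _ hA hB hxA hxB (by simp) (by simp) (by simp) (by simp)
      simp only [Set.mem_insert_iff, Set.mem_singleton_iff] at hz1 hz2
      have q0 : ∀ z, z = t 0 ∨ z = t 2 → ¬ (z = t 1 ∨ z = y ∨ z = c ∨ z = t j) := by
        rintro z (rfl | rfl) (e | e | e | e)
        · exact hne 0 (by omega) 1 (by omega) (by omega) e
        · exact hUt y hxy 0 (by omega) e.symm
        · exact hct 0 (by omega) e.symm
        · exact hne 0 (by omega) j hj5 (by omega) e
        · exact hne 2 (by omega) 1 (by omega) (by omega) e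
        · exact hUt y hxy 2 (by omega) e.symm
        · exact hct 2 (by omega) e.symm
        · exact hne 2 (by omega) j hj5 (by omega) e
      have q1 : ∀ k, G.Adj w k → (k = t 1 ∨ k = y ∨ k = c ∨ k = t j) → k = y ∨ k = t j := by
        rintro k hk (e | e | e | e)
        · exact absurd (e ▸ hk.symm) h1w
        · exact Or.inl e
        · exact absurd (e ▸ hk.symm) hcw
        · exact Or.inr e
      rcases hz1 with e | e | e | e | e
      · exact absurd hz2 (q0 z (Or.inl e))
      · subst e
        rcases q1 z e0.1 hz2 with e | e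
        · exact Or.inl (Or.inl e)
        · exact Or.inr (Or.inl e)
      · subst e
        exfalso
        rcases hz2 with e | e | e | e
        · exact hUt z hxw 1 (by omega) e
        · exact hwy e
        · exact hwc e
        · exact hUt z hxw j hj5 e
      · subst e
        rcases q1 z e2.1 hz2 with e | e
        · exact Or.inl (Or.inr e)
        · exact Or.inr (Or.inr e)
      · exact absurd hz2 (q0 z (Or.inr e))
    have a0 : k0 ≠ t 3 := by
      rintro rfl
      rcases e0.2 with e | e
      · exact hne 3 (by omega) 0 (by omega) (by omega) e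
      · exact n03 e
    have a2 : k2 ≠ t 4 := by
      rintro rfl
      rcases e2.2 with e | e
      · exact hne 4 (by omega) 2 (by omega) (by omega) e
      · exact n24 e
    by_cases hs : k0 = t 4 ∧ k2 = t 3
    · exfalso
      have hw4 : G.Adj w (t 4) := hs.1 ▸ e0.1
      have hw3 : G.Adj w (t 3) := hs.2 ▸ e2.1
      exact hK V G R (t 3) (t 4) x c w (t 1) u h.s5 (hD 3 (by omega)).1 (hD 4 (by omega)).1
        (hne 3 (by omega) 4 (by omega) (by omega)) hh.ne.symm hwx.symm hwc.symm
        (hD 3 (by omega)).2.symm hc3.symm hw3.symm (hD 4 (by omega)).2.symm hc4.symm hw4.symm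
        hwR (hD 1 (by omega)).1 huR (hD 1 (by omega)).2 hcu
        (hne 1 (by omega) 3 (by omega) (by omega)) (hne 1 (by omega) 4 (by omega) (by omega))
        (hD 1 (by omega)).2.ne' (hct 1 (by omega)).symm (hUt w hxw 1 (by omega)).symm
        (hUt u hxu 3 (by omega)) (hUt u hxu 4 (by omega)) hux hcu.ne' hwu.symm
    · have c1 := cross u 3 (Or.inl rfl) (Or.inl rfl)
      have c2 := cross u 4 (Or.inl rfl) (Or.inr rfl)
      have : k0 = u ∨ k2 = u := by tauto
      rcases this with e | e
      · exact e ▸ e0.1.symm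
      · exact e ▸ e2.1.symm
  -- counting
  have hdeg := h.s5.deg
  set W : Finset V := (U G R x).filter (fun w => w ≠ u ∧ w ≠ v ∧ w ≠ c ∧ ¬ G.Adj (t 1) w ∧
    ¬ G.Adj c w) with hWdef
  have hW5 : W.card + 1 ≤ 5 := by
    have := few (hdeg u) {t 1} (by
      intro k hk
      rw [Finset.mem_singleton] at hk
      subst hk
      exact ⟨(hD 1 (by omega)).1, hu1⟩) W (by
      intro w hw
      simp only [hWdef, Finset.mem_filter] at hw
      obtain ⟨hwU, h1, h2, h3, h4, h5⟩ := hw
      obtain ⟨hwR, hwx, hxw⟩ := hU w hwU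
      exact ⟨hwR, main w hwR hwx hxw h1 h2 h3 h4 h5, by
        rw [Finset.mem_singleton]; exact hUt w hxw 1 (by omega)⟩)
    simpa using this
  set N1 : Finset V := (U G R x).filter (fun w => w ≠ u ∧ w ≠ v ∧ G.Adj (t 1) w) with hN1
  set Nc : Finset V := (U G R x).filter (fun w => w ≠ u ∧ w ≠ v ∧ G.Adj c w) with hNc
  have hcov : U G R x ⊆ W ∪ ({u, v, c} ∪ (N1 ∪ Nc)) := by
    intro w hw
    simp only [Finset.mem_union, hWdef, hN1, hNc, Finset.mem_filter, Finset.mem_insert,
      Finset.mem_singleton]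
    tauto
  have hcard := Finset.card_le_card hcov
  have hc1 := Finset.card_union_le W ({u, v, c} ∪ (N1 ∪ Nc))
  have hc2 := Finset.card_union_le ({u, v, c} : Finset V) (N1 ∪ Nc)
  have hc3' := Finset.card_union_le N1 Nc
  have hc4' : ({u, v, c} : Finset V).card ≤ 3 := Finset.card_le_three
  have hNc1 : Nc.card + 4 ≤ 5 := by
    have h4 : ({u, v, t 3, t 4} : Finset V).card = 4 := by
      rw [Finset.card_insert_of_notMem, Finset.card_insert_of_notMem,
        Finset.card_insert_of_notMem, Finset.card_singleton]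
      · simpa using hne 3 (by omega) 4 (by omega) (by omega)
      · simp only [Finset.mem_insert, Finset.mem_singleton, not_or]
        exact ⟨hUt v hxv 3 (by omega), hUt v hxv 4 (by omega)⟩
      · simp only [Finset.mem_insert, Finset.mem_singleton, not_or]
        exact ⟨h.nuv, hUt u hxu 3 (by omega), hUt u hxu 4 (by omega)⟩
    have := few (hdeg c) {u, v, t 3, t 4} (by
      intro k hk
      simp only [Finset.mem_insert, Finset.mem_singleton] at hk
      rcases hk with rfl | rfl | rfl | rfl
      · exact ⟨huR, hcu⟩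
      · exact ⟨hvR, hcv⟩
      · exact ⟨(hD 3 (by omega)).1, hc3⟩
      · exact ⟨(hD 4 (by omega)).1, hc4⟩) Nc (by
      intro w hw
      simp only [hNc, Finset.mem_filter] at hw
      obtain ⟨hwU, h1, h2, h3⟩ := hw
      obtain ⟨hwR, hwx, hxw⟩ := hU w hwU
      refine ⟨hwR, h3, ?_⟩
      simp only [Finset.mem_insert, Finset.mem_singleton, not_or]
      exact ⟨h1, h2, hUt w hxw 3 (by omega), hUt w hxw 4 (by omega)⟩)
    omega
  have hcU := card_U G R x
  rw [card_D hc, h.s5.card] at hcU
  have h12 : t 0 ∉ ({t 2, u, v} : Finset V) := by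
    simp only [Finset.mem_insert, Finset.mem_singleton, not_or]
    exact ⟨hne 0 (by omega) 2 (by omega) (by omega), (hUt u hxu 0 (by omega)).symm,
      (hUt v hxv 0 (by omega)).symm⟩
  have h13 : t 2 ∉ ({u, v} : Finset V) := by
    simp only [Finset.mem_insert, Finset.mem_singleton, not_or]
    exact ⟨(hUt u hxu 2 (by omega)).symm, (hUt v hxv 2 (by omega)).symm⟩
  have h4 : ({t 0, t 2, u, v} : Finset V).card = 4 := by
    rw [Finset.card_insert_of_notMem h12, Finset.card_insert_of_notMem h13,
      Finset.card_insert_of_notMem (by simpa using h.nuv), Finset.card_singleton]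
  have hN1m : ∀ w ∈ N1, w ∈ R ∧ G.Adj (t 1) w ∧ w ∉ ({x, t 0, t 2, u, v} : Finset V) := by
    intro w hw
    simp only [hN1, Finset.mem_filter] at hw
    obtain ⟨hwU, h1, h2, h3⟩ := hw
    obtain ⟨hwR, hwx, hxw⟩ := hU w hwU
    refine ⟨hwR, h3, ?_⟩
    simp only [Finset.mem_insert, Finset.mem_singleton, not_or]
    exact ⟨hwx, hUt w hxw 0 (by omega), hUt w hxw 2 (by omega), h1, h2⟩
  by_cases hxR : x ∈ R
  · have h5 : ({x, t 0, t 2, u, v} : Finset V).card = 5 := by
      rw [Finset.card_insert_of_notMem, h4]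
      simp only [Finset.mem_insert, Finset.mem_singleton, not_or]
      exact ⟨(hD 0 (by omega)).2.ne, (hD 2 (by omega)).2.ne, hux.symm, hvx.symm⟩
    have := few (hdeg (t 1)) {x, t 0, t 2, u, v} (by
      intro k hk
      simp only [Finset.mem_insert, Finset.mem_singleton] at hk
      rcases hk with rfl | rfl | rfl | rfl | rfl
      · exact ⟨hxR, (hD 1 (by omega)).2.symm⟩
      · exact ⟨(hD 0 (by omega)).1, h.c10⟩
      · exact ⟨(hD 2 (by omega)).1, h.c12⟩
      · exact ⟨huR, hu1.symm⟩
      · exact ⟨hvR, hv1.symm⟩) N1 hN1m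
    simp only [ir, hxR, if_true] at hcU
    omega
  · have := few (hdeg (t 1)) {t 0, t 2, u, v} (by
      intro k hk
      simp only [Finset.mem_insert, Finset.mem_singleton] at hk
      rcases hk with rfl | rfl | rfl | rfl
      · exact ⟨(hD 0 (by omega)).1, h.c10⟩
      · exact ⟨(hD 2 (by omega)).1, h.c12⟩
      · exact ⟨huR, hu1.symm⟩
      · exact ⟨hvR, hv1.symm⟩) N1 (fun w hw => ⟨(hN1m w hw).1, (hN1m w hw).2.1, fun e =>
        (hN1m w hw).2.2 (Finset.mem_insert_of_mem e)⟩)
    simp only [ir, hxR, if_false] at hcU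
    omega

end Pool.Agent.H44.RCQ.K5B
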