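import Pool.Agent.H6.RCQ.Stmts5
import Pool.Agent.H67.RCR.A1
import Pool.Agent.H67.RCR.A2
import Pool.Agent.H59.RCR.A4
import Pool.Agent.H59.RCR.A5
import Pool.Agent.H21.RCR.A0
import Pool.Agent.H21.RCR.A6
import Pool.Agent.H21.RCR.A7
import Pool.Agent.H21.RCR.A9
import Pool.Agent.H22.RCR.A10
import Pool.Agent.H22.RCR.A11
import Pool.Agent.H22.RCR.A17
import Pool.Agent.H65.RCR.A21

/-! # RCQ, module SM2: cutting a sphere along a separating triangle -/

set_option autoImplicit false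

namespace Pool.Agent.H44.RCQ.SM2

open Pool.Agent.H6.RCQ Pool.Agent.H3.RCR

theorem rA0 : A0Stmt := Pool.Agent.H21.RCR.a0 (Pool.Agent.H21.RCR.a6 A5.a5)
  (Pool.Agent.H21.RCR.a7 A4.a4)

theorem rA11 : A11Stmt := A11.a11 a1 a2 rA0 (A10.a10 rA0 (Pool.Agent.H21.RCR.a9 rA0) A21.a21)

theorem rA17 : A17Stmt := A17.a17 a1 a2

/-- replacing a side of a 3-cycle by a face gives a sphere -/
theorem sph_cap {F S : Finset Tri} {a b c : ℕ} (hF : Sph F)
    (hS : Side3 F a b c S) : Sph ((F \ S) ∪ rots (a, b, c)) :=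
  (rA17 _ _ _ _ hF (rA11 F a b c S hF hS)).1

theorem mem_rots1 (a b c : ℕ) : (a, b, c) ∈ rots (a, b, c) := by simp [rots]

theorem verts_union (A B : Finset Tri) : verts (A ∪ B) = verts A ∪ verts B := by
  simp [verts, Finset.image_union]

theorem verts_rots (a b c : ℕ) : verts (rots (a, b, c)) = {a, b, c} := by
  simp [verts, rots, Finset.image_insert, Finset.image_singleton]

theorem four_le {X : Finset ℕ} {u v w : ℕ} (hu : u ∈ X) (hv : v ∈ X) (hw : w ∈ X) (huv : u ≠ v)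
    (hvw : v ≠ w) (huw : w ≠ u) (hx : ¬ ∀ x ∈ X, x = u ∨ x = v ∨ x = w) : 4 ≤ X.card := by
  push Not at hx
  obtain ⟨x, hxX, h1, h2, h3⟩ := hx
  have hsub : ({u, v, w, x} : Finset ℕ) ⊆ X := by
    intro y hy
    simp only [Finset.mem_insert, Finset.mem_singleton] at hy
    rcases hy with rfl | rfl | rfl | rfl <;> assumption
  have h4 : ({u, v, w, x} : Finset ℕ).card = 4 := by
    rw [Finset.card_insert_of_notMem, Finset.card_insert_of_notMem,
      Finset.card_insert_of_notMem, Finset.card_singleton]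
    · simpa using h3.symm
    · simp only [Finset.mem_insert, Finset.mem_singleton, not_or]
      exact ⟨hvw, h2.symm⟩
    · simp only [Finset.mem_insert, Finset.mem_singleton, not_or]
      exact ⟨huv, huw.symm, h1.symm⟩
  rw [← h4]
  exact Finset.card_le_card hsub

theorem sm2 : SM2Stmt := by
  intro F u v w hF huv hvw hwu h1 h2
  obtain ⟨-, hA⟩ := rA0
  obtain ⟨hex, hprop⟩ := hA F u v w hF
  obtain ⟨S, hS⟩ := hex huv hvw hwu
  obtain ⟨-, hS', -, hin, hu, hv, hw, hu', hv', hw', htriv⟩ := hprop S hS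
  obtain ⟨-, hprop'⟩ := hA F u w v hF
  obtain ⟨-, -, -, -, -, -, -, -, -, -, htriv'⟩ := hprop' (F \ S) hS'
  have hFS : F \ (F \ S) = S := Finset.sdiff_sdiff_eq_self hS.sub
  have hs2 : Sph ((F \ S) ∪ rots (u, v, w)) := sph_cap hF hS
  have hs1 : Sph (S ∪ rots (u, w, v)) := by
    have := sph_cap hF hS'
    rwa [hFS] at this
  have nuv := hF.toPre.adj_ne huv
  have nvw := hF.toPre.adj_ne hvw
  have nwu := hF.toPre.adj_ne hwu
  have hv1 : verts (S ∪ rots (u, w, v)) = verts S := by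
    rw [verts_union, verts_rots]
    apply Finset.union_eq_left.2
    intro x hx
    simp only [Finset.mem_insert, Finset.mem_singleton] at hx
    rcases hx with rfl | rfl | rfl <;> assumption
  have hv2 : verts ((F \ S) ∪ rots (u, v, w)) = verts (F \ S) := by
    rw [verts_union, verts_rots]
    apply Finset.union_eq_left.2
    intro x hx
    simp only [Finset.mem_insert, Finset.mem_singleton] at hx
    rcases hx with rfl | rfl | rfl <;> assumption
  refine ⟨S ∪ rots (u, w, v), (F \ S) ∪ rots (u, v, w), hs1, hs2, ?_, ?_, ?_, ?_, ?_, ?_, ?_, ?_,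
    ?_, ?_, ?_⟩
  · rw [hv1, hv2, ← verts_union, Finset.union_sdiff_of_subset hS.sub]
  · rw [hv1, hv2]
    ext x
    simp only [Finset.mem_inter, Finset.mem_insert, Finset.mem_singleton]
    constructor
    · rintro ⟨hx1, hx2⟩
      by_contra hne
      push Not at hne
      obtain ⟨b, c, hbc⟩ := mem_verts.1 hx2
      have := hin x hx1 hne.1 hne.2.1 hne.2.2 b c (Finset.mem_sdiff.1 hbc).1
      exact (Finset.mem_sdiff.1 hbc).2 this
    · rintro (rfl | rfl | rfl) <;> exact ⟨by assumption, by assumption⟩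
  · rw [hv1]
    refine four_le hu hv hw nuv nvw nwu fun hall => ?_
    have := htriv hall
    exact h1 (hS.sub (this ▸ mem_rots1 u v w))
  · rw [hv2]
    refine four_le hu' hv' hw' nuv nvw nwu fun hall => ?_
    have := htriv' (fun x hx => by
      rcases hall x hx with h | h | h
      · exact Or.inl h
      · exact Or.inr (Or.inr h)
      · exact Or.inr (Or.inl h))
    have h3 : (u, w, v) ∈ F \ S := this ▸ mem_rots1 u w v
    exact h2 (hF.toPre.rot2 (Finset.mem_sdiff.1 h3).1)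
  · rintro a b ⟨c, hc⟩
    by_cases hcS : (a, b, c) ∈ S
    · exact Or.inl ⟨c, Finset.mem_union_left _ hcS⟩
    · exact Or.inr ⟨c, Finset.mem_union_left _ (Finset.mem_sdiff.2 ⟨hc, hcS⟩)⟩
  · obtain ⟨⟨c, hc⟩, -⟩ := (hS.jump u v).2 (Or.inl ⟨rfl, rfl⟩)
    exact ⟨c, Finset.mem_union_left _ hc⟩
  · obtain ⟨⟨c, hc⟩, -⟩ := (hS.jump v w).2 (Or.inr (Or.inl ⟨rfl, rfl⟩))
    exact ⟨c, Finset.mem_union_left _ hc⟩
  · obtain ⟨⟨c, hc⟩, -⟩ := (hS.jump w u).2 (Or.inr (Or.inr ⟨rfl, rfl⟩))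
    exact ⟨c, Finset.mem_union_left _ hc⟩
  · exact ⟨w, Finset.mem_union_right _ (by simp [rots])⟩
  · exact ⟨u, Finset.mem_union_right _ (by simp [rots])⟩
  · exact ⟨v, Finset.mem_union_right _ (by simp [rots])⟩

end Pool.Agent.H44.RCQ.SM2
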