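import Pool.Agent.H6.RCQ.Stmts4
import Pool.Agent.H6.RCQ.Util

/-! # RCQ, module W5S: windows for degree five -/

set_option autoImplicit false

namespace Pool.Agent.H44.RCQ.W5S

open Pool.Agent.H6.RCQ Pool.Agent.H39.RC

variable {V : Type}

/-- a pair of non-consecutive elements of the cycle cannot be joined by a connected set `Z`
avoiding `x` if all other vertices of `R` are joined avoiding `Z` and `x` -/
theorem key {G : SimpleGraph V} {x : V} {Dx : Finset V} {t : ℕ → V}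
    (hc : Circ G x Dx 5 t) {Z : Set V} (hZ : Con G Z) (hx : x ∉ Z) {i j : ℕ} (hi : i < 5)
    (hj : j < 5) (hij : i < j) (hiZ : t i ∈ Z) (hjZ : t j ∈ Z)
    (hn : ¬ (j = (i + 1) % 5 ∨ i = (j + 1) % 5))
    (hJ : ∀ k < 5, ∀ l < 5, k ≠ i → k ≠ j → l ≠ i → l ≠ j →
      ∃ Y : Set V, t k ∈ Y ∧ t l ∈ Y ∧ Con G Y ∧ (∀ y ∈ Y, y ≠ x ∧ y ∉ Z)) : False := by
  have main : ∀ a b c d, a < b → b < c → c < d → d < 5 →
      ((a = i ∧ c = j) ∨ (b = i ∧ d = j)) → False := by
    intro a b c d hab hbc hcd hd h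
    have hcr := hc.cr a b c d hab hbc hcd hd
    rcases h with ⟨rfl, rfl⟩ | ⟨rfl, rfl⟩
    · obtain ⟨Y, h1, h2, h3, h4⟩ := hJ b (by omega) d hd (by omega) (by omega) (by omega)
        (by omega)
      obtain ⟨z, hz1, hz2⟩ := hcr Z Y hZ h3 hx (fun h => (h4 x h).1 rfl) hiZ hjZ h1 h2
      exact (h4 z hz2).2 hz1
    · obtain ⟨Y, h1, h2, h3, h4⟩ := hJ a (by omega) c (by omega) (by omega) (by omega)
        (by omega) (by omega)
      obtain ⟨z, hz1, hz2⟩ := hcr Y Z h3 hZ (fun h => (h4 x h).1 rfl) hx h1 h2 hiZ hjZ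
      exact (h4 z hz1).2 hz2
  interval_cases i <;> interval_cases j <;> simp at hn hij
  · exact main 0 1 2 3 (by omega) (by omega) (by omega) (by omega) (Or.inl ⟨rfl, rfl⟩)
  · exact main 0 1 3 4 (by omega) (by omega) (by omega) (by omega) (Or.inl ⟨rfl, rfl⟩)
  · exact main 0 1 2 3 (by omega) (by omega) (by omega) (by omega) (Or.inr ⟨rfl, rfl⟩)
  · exact main 0 1 2 4 (by omega) (by omega) (by omega) (by omega) (Or.inr ⟨rfl, rfl⟩)
  · exact main 0 2 3 4 (by omega) (by omega) (by omega) (by omega) (Or.inr ⟨rfl, rfl⟩)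

/-- the symmetric form -/
theorem key' {G : SimpleGraph V} {x : V} {Dx : Finset V} {t : ℕ → V}
    (hc : Circ G x Dx 5 t) {Z : Set V} (hZ : Con G Z) (hx : x ∉ Z) {i j : ℕ} (hi : i < 5)
    (hj : j < 5) (hij : i ≠ j) (hiZ : t i ∈ Z) (hjZ : t j ∈ Z)
    (hJ : ∀ k < 5, ∀ l < 5, k ≠ i → k ≠ j → l ≠ i → l ≠ j →
      ∃ Y : Set V, t k ∈ Y ∧ t l ∈ Y ∧ Con G Y ∧ (∀ y ∈ Y, y ≠ x ∧ y ∉ Z)) :
    j = (i + 1) % 5 ∨ i = (j + 1) % 5 := by
  by_contra hn
  rcases lt_or_gt_of_ne hij with h | h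
  · exact key hc hZ hx hi hj h hiZ hjZ hn hJ
  · exact key hc hZ hx hj hi h hjZ hiZ (fun h' => hn h'.symm)
      (fun k hk l hl h1 h2 h3 h4 => hJ k hk l hl h2 h1 h4 h3)

theorem w5s (hTE : TEStmt) (hQE : QEStmt) : W5SStmt := by
  intro V G R x t hS hc
  have hD : ∀ i < 5, t i ∈ R ∧ G.Adj x (t i) := by
    intro i hi
    have := hc.mem i hi
    simpa [D] using this
  have hS6 : S6 G R 6 := ⟨hS.lf, hS.card, fun y => (hS.deg y).trans (by norm_num), hS.cc⟩
  have hadj : ∀ i < 5, ∀ j < 5, G.Adj (t i) (t j) → j = (i + 1) % 5 ∨ i = (j + 1) % 5 := by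
    intro i hi j hj hij
    have hne : i ≠ j := by
      rintro rfl
      exact G.irrefl hij
    have hxn : x ∉ ({t i, t j} : Set V) := by
      rintro (h | h)
      · exact (hD i hi).2.ne h
      · exact (hD j hj).2.ne h
    refine key' hc (con_pair (Or.inr hij)) hxn hi hj hne (by simp) (by simp) ?_
    intro k hk l hl h1 h2 h3 h4
    obtain ⟨Y, h5, h6, h7, h8⟩ := hTE V G R x (t i) (t j) hS6 (hD i hi).1 (hD j hj).1
      (hD i hi).2 (hD j hj).2 hij (t k) (hD k hk).1 (t l) (hD l hl).1 (hD k hk).2.ne'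
      (fun h => h1 (hc.inj _ hk _ hi h)) (fun h => h2 (hc.inj _ hk _ hj h)) (hD l hl).2.ne'
      (fun h => h3 (hc.inj _ hl _ hi h)) (fun h => h4 (hc.inj _ hl _ hj h))
    refine ⟨Y, h5, h6, h7, fun y hy => ?_⟩
    have := h8 y hy
    simp only [Set.mem_insert_iff, Set.mem_singleton_iff, not_or] at this ⊢
    exact this
  refine ⟨hS, hc, hadj, ?_⟩
  intro h hhx hhD
  have hcon : ∀ i < 5, ∀ j < 5, G.Adj h (t i) → G.Adj h (t j) → i ≠ j →
      j = (i + 1) % 5 ∨ i = (j + 1) % 5 := by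
    intro i hi j hj h1 h2 hne
    have hht : ∀ k < 5, h ≠ t k := fun k hk e => hhD (e ▸ hc.mem k hk)
    have hZ : Con G ({t i, h, t j} : Set V) := con_three (Or.inr h1.symm) (Or.inr h2)
    have hxn : x ∉ ({t i, h, t j} : Set V) := by
      rintro (h | h | h)
      · exact (hD i hi).2.ne h
      · exact hhx h.symm
      · exact (hD j hj).2.ne h
    refine key' hc hZ hxn hi hj hne (by simp) (by simp) ?_
    intro k hk l hl h3 h4 h5 h6
    have hQ : ∀ m < 5, m ≠ i → m ≠ j → t m ∉ Q4 x h (t i) (t j) := by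
      intro m hm h7 h8
      simp only [Q4, Set.mem_insert_iff, Set.mem_singleton_iff, not_or]
      exact ⟨(hD m hm).2.ne', (hht m hm).symm, fun e => h7 (hc.inj _ hm _ hi e),
        fun e => h8 (hc.inj _ hm _ hj e)⟩
    obtain ⟨Y, h7, h8, h9, h10⟩ := hQE V G R x h (t i) (t j) hS hhx.symm
      (fun e => hne (hc.inj _ hi _ hj e)) (hD i hi).1 (hD j hj).1 (hD i hi).2 (hD j hj).2 h1 h2
      (t k) (hD k hk).1 (t l) (hD l hl).1 (hQ k hk h3 h4) (hQ l hl h5 h6)
    refine ⟨Y, h7, h8, h9, fun y hy => ?_⟩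
    have := h10 y hy
    simp only [Q4, Set.mem_insert_iff, Set.mem_singleton_iff, not_or] at this ⊢
    tauto
  have n02 : G.Adj h (t 0) → ¬ G.Adj h (t 2) := fun h1 h2 => by
    have := hcon 0 (by omega) 2 (by omega) h1 h2 (by omega); omega
  have n03 : G.Adj h (t 0) → ¬ G.Adj h (t 3) := fun h1 h2 => by
    have := hcon 0 (by omega) 3 (by omega) h1 h2 (by omega); omega
  have n13 : G.Adj h (t 1) → ¬ G.Adj h (t 3) := fun h1 h2 => by
    have := hcon 1 (by omega) 3 (by omega) h1 h2 (by omega); omega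
  have n14 : G.Adj h (t 1) → ¬ G.Adj h (t 4) := fun h1 h2 => by
    have := hcon 1 (by omega) 4 (by omega) h1 h2 (by omega); omega
  have n24 : G.Adj h (t 2) → ¬ G.Adj h (t 4) := fun h1 h2 => by
    have := hcon 2 (by omega) 4 (by omega) h1 h2 (by omega); omega
  by_cases p0 : G.Adj h (t 0)
  · by_cases p1 : G.Adj h (t 1)
    · refine ⟨0, by omega, ?_⟩
      intro i hi hh
      interval_cases i <;> simp_all
    · refine ⟨4, by omega, ?_⟩
      intro i hi hh
      interval_cases i <;> simp_all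
  · by_cases p1 : G.Adj h (t 1)
    · refine ⟨1, by omega, ?_⟩
      intro i hi hh
      interval_cases i <;> simp_all
    · by_cases p2 : G.Adj h (t 2)
      · refine ⟨2, by omega, ?_⟩
        intro i hi hh
        interval_cases i <;> simp_all
      · refine ⟨3, by omega, ?_⟩
        intro i hi hh
        interval_cases i <;> simp_all

end Pool.Agent.H44.RCQ.W5S
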